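import Pool.Agent.P.MP_8be758_nt.C2.TDEC2
import Pool.Agent.P.MP_8be758_nt.C2.STEPaux

/-! Local sums with many poles and the decomposition with exponents. -/

namespace Pool.Agent.P.MP_e94e4b_nt.W

open Polynomial Finset Pool.Agent.P.MP_8be758_nt.C2
open scoped Classical

theorem psi_eq_trace {F : Type} [Field F] [Finite F] [Algebra (ZMod 2) F] (y : F) :
    psi y = if Algebra.trace (ZMod 2) F y = 0 then 1 else -1 := by
  have : trs y = algebraMap (ZMod 2) F (Algebra.trace (ZMod 2) F y) := by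
    rw [FiniteField.algebraMap_trace_eq_sum_pow, trs,
      Module.natCard_eq_pow_finrank (K := ZMod 2) (V := F), Nat.card_zmod, Nat.log_pow one_lt_two]
  simp only [psi, this, map_eq_zero]

theorem psi_pow {F : Type} [Field F] [Finite F] [CharP F 2] (y : F) (e : ℕ) :
    psi y ^ e = psi (e * y) := by
  induction e with
  | zero => simp [psi_zero]
  | succ e ih => rw [pow_succ, ih, ← psi_add]; push_cast; ring_nf

theorem lks_field {F ι : Type} [Field F] [Fintype F] [CharP F 2] (t : Finset ι) (c u b : ι → F)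
    (l : F) (hb : ∀ i ∈ t, b i ≠ 0)
    (hd : ∀ i ∈ t, ∀ j ∈ t, ∀ z, u i + b i * z = 0 → u j + b j * z = 0 → i = j)
    (hc : ∃ i ∈ t, c i ≠ 0) :
    |∑ y : F, (∏ i ∈ t, if u i + b i * y = 0 then 0 else psi (c i / (u i + b i * y))) *
      psi (l * y)| ≤ (7 * t.card + 9) * √(Nat.card F : ℝ) := by
  let : Algebra (ZMod 2) F := ZMod.algebra F 2
  have hz : ∀ i ∈ t, ∀ y, u i + b i * y = b i * (y - -u i / b i) := fun i hi y => by
    have := hb i hi
    field_simp
    ring
  have hi : Set.InjOn (fun i => -u i / b i) t := fun i hi j hj h =>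
    hd i hi j hj (-u i / b i) (by rw [hz i hi, sub_self, mul_zero])
      (by rw [hz j hj, show -u i / b i = -u j / b j from h, sub_self, mul_zero])
  have dD : (Lagrange.nodal t fun i => -u i / b i).natDegree = t.card := Lagrange.natDegree_nodal
  have key := step F (∑ i ∈ t, C (c i / b i) * Lagrange.nodal (t.erase i) (fun i => -u i / b i) +
    C l * X * Lagrange.nodal t fun i => -u i / b i) (Lagrange.nodal t fun i => -u i / b i)
    (t.card + 1) ?_ (by omega) (separable_prod_X_sub_C_iff'.2 fun i h j h' => hi h h') ?_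
  · rw [sum_filter] at key
    rw [Nat.card_eq_fintype_card]
    convert key using 2
    · refine sum_congr rfl fun y _ => ?_
      rw [← psi_eq_trace, Lagrange.eval_nodal]
      split_ifs with h
      · rw [prod_ne_zero_iff] at h
        rw [prod_congr rfl fun i hi => if_neg (by
          rw [hz i hi]; exact mul_ne_zero (hb i hi) (h i hi)), ← psi_sum, ← psi_add]
        congr 1
        simp only [eval_add, eval_mul, eval_C, eval_X, eval_finsetSum, Lagrange.eval_nodal]
        rw [add_div, mul_div_cancel_right₀ _ (prod_ne_zero_iff.2 h), sum_div]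
        congr 1
        refine sum_congr rfl fun i hi => ?_
        rw [← mul_prod_erase t _ hi, mul_div_mul_right _ _
          (prod_ne_zero_iff.2 fun j hj => h j (mem_of_mem_erase hj)), hz i hi, div_div]
      · obtain ⟨i, hi, h⟩ := prod_eq_zero_iff.1 (not_not.1 h)
        refine mul_eq_zero_of_left (prod_eq_zero hi ?_) _
        rw [hz i hi, h, mul_zero, if_pos rfl]
    · push_cast; ring
  · refine (natDegree_add_le _ _).trans (max_le (natDegree_sum_le_of_forall_le _ _ fun i _ =>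
      (natDegree_C_mul_le _ _).trans ?_) (natDegree_mul_le.trans ?_))
    · rw [Lagrange.natDegree_nodal]
      exact card_erase_le.trans (Nat.le_succ _)
    · have : (C l * X : F[X]).natDegree ≤ 1 := by compute_degree
      omega
  · obtain ⟨i, h1, h2⟩ := hc
    intro h
    have h3 := Lagrange.eval_nodal_at_node (v := fun i => -u i / b i) h1
    have h4 := eval_eq_zero_of_dvd_of_eval_eq_zero h h3
    rw [eval_add, eval_mul, h3, mul_zero, add_zero, eval_finsetSum, sum_eq_single_of_mem i h1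
      fun j _ hj => by
        rw [eval_mul, Lagrange.eval_nodal_at_node (v := fun i => -u i / b i)
          (mem_erase.2 ⟨hj.symm, h1⟩), mul_zero], eval_mul, eval_C] at h4
    exact mul_ne_zero (div_ne_zero h2 (hb i h1)) (Lagrange.eval_nodal_not_at_node fun j hj e =>
      ne_of_mem_erase hj (hi h1 (mem_of_mem_erase hj) e).symm) h4

variable {k : Type} [Field k] [Finite k] [CharP k 2]

theorem lks (hLOC : S_LOC) {ι : Type} (t : Finset ι) {P : k[X]} (c u b : ι → k[X]) (l : k[X])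
    (hm : P.Monic) (hP : Irreducible P) (hb : ∀ i ∈ t, ¬ P ∣ b i)
    (hd : ∀ i ∈ t, ∀ j ∈ t, ∀ z, P ∣ u i + b i * z → P ∣ u j + b j * z → i = j)
    (hc : ∃ i ∈ t, ¬ P ∣ c i) :
    |∑ x ∈ low k P.natDegree, (∏ i ∈ t, lk P (c i) (u i + b i * x)) * psi (res P (l * x))| ≤
      (7 * t.card + 9) * √((Nat.card k : ℝ) ^ P.natDegree) := by
  have : Fact (Irreducible P) := ⟨hP⟩
  have : Finite (AdjoinRoot P) := finite_adjoinRoot hP.ne_zero
  have : Fintype (AdjoinRoot P) := Fintype.ofFinite _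
  have : CharP (AdjoinRoot P) 2 := charP_adjoinRoot
  simp only [← AdjoinRoot.mk_eq_zero (f := P)] at hb hd hc
  have key := lks_field t (fun i => AdjoinRoot.mk P (c i)) (fun i => AdjoinRoot.mk P (u i))
    (fun i => AdjoinRoot.mk P (b i)) (AdjoinRoot.mk P l / AdjoinRoot.mk P (derivative P)) hb
    (fun i hi j hj z => by
      obtain ⟨z, rfl⟩ := AdjoinRoot.mk_surjective z
      simpa only [map_add, map_mul] using hd i hi j hj z) hc
  rw [← sum_low_mk hP.ne_zero, card_adjoinRoot hP.ne_zero, Nat.cast_pow] at key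
  refine le_of_eq_of_le (congrArg _ (sum_congr rfl fun x _ => ?_)) key
  rw [hLOC k P (l * x) hm hP]
  simp only [lk, lp_eq, ← AdjoinRoot.mk_eq_zero, map_add, map_mul]
  rw [mul_div_right_comm]

theorem lk_pow {P : k[X]} (hP : Irreducible P) (c w : k[X]) {e : ℕ} (he : e ≠ 0) :
    lk P c w ^ e = lk P (e * c) w := by
  have : Fact (Irreducible P) := ⟨hP⟩
  have : Finite (AdjoinRoot P) := finite_adjoinRoot hP.ne_zero
  have : CharP (AdjoinRoot P) 2 := charP_adjoinRoot
  simp only [lk, lp_eq]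
  split_ifs
  · exact zero_pow he
  · rw [psi_pow, map_mul, map_natCast, mul_div_assoc]

theorem dec (hFORM : S_FORM) (hSPLIT : S_SPLIT) (hDLOC : S_DLOC) {U V V1 : k[X]} {s : Finset k[X]}
    (hU : U.Monic) (hV1 : V1 ≠ 0) (hV : V = V1 * ∏ P ∈ s, P) (hd : V.natDegree < U.natDegree)
    (hs : ∀ P ∈ s, P.Monic ∧ Irreducible P ∧ ¬ P ∣ V1 ∧ ¬ P ∣ kap 1 U V) {e : ℕ} (he : e ≠ 0) :
    ∃ (a χ : k[X] → ℝ) (Cn : k[X]) (c u b : k[X] → k[X]),
      (∀ z, |a z| ≤ 1) ∧ (∀ z y, a (z + V1 * y) = a z) ∧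
      (∀ z y, χ (z + y) = χ z * χ y) ∧ (∀ z, χ z = 1 ∨ χ z = -1) ∧
      Cn.natDegree + 2 ≤ 3 * U.natDegree ∧
      (∀ P ∈ s, (Odd e → ¬ P ∣ c P) ∧ ¬ P ∣ b P ∧ ∀ z, P ∣ u P + b P * z ↔ P ∣ U + z ^ 2) ∧
      ∀ z : k[X], 2 * z.natDegree < U.natDegree → mu (eo (U + z ^ 2) V) ^ e =
        a z * (χ z * (psi (res ((U + z ^ 2) * V ^ 2) Cn) *
          ∏ P ∈ s, lk P (c P) (u P + b P * z))) := by
  have h2 : (2 : k[X]) = 0 := CharTwo.two_eq_zero
  obtain ⟨U0, a0, eU⟩ := exists_sq_add U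
  obtain ⟨V0, b, eV⟩ := exists_sq_add V
  have hs' : ∀ P ∈ s, P.Monic ∧ Irreducible P := fun P hP => ⟨(hs P hP).1, (hs P hP).2.1⟩
  have hV0 : V ≠ 0 := by
    rw [hV]
    exact mul_ne_zero hV1 (prod_ne_zero_iff.2 fun P hP => (hs P hP).2.1.ne_zero)
  have hdV : derivative V = b ^ 2 := by rw [eV]; exact derivative_sq_add _ _
  have hPV : ∀ P ∈ s, P ∣ V := fun P hP => hV ▸ (dvd_prod_of_mem _ hP).mul_left _
  have hloc := fun P (hP : P ∈ s) => hDLOC k P U0 a0 V0 b 1 0 (hs P hP).1 (hs P hP).2.1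
    (eV ▸ hPV P hP)
    (fun h => DEC2_der hs' hP (hs P hP).2.2.1 (by
      rw [← hV, hdV]; exact h.trans (dvd_pow_self b two_ne_zero)))
    (by simpa using (hs P hP).2.1.not_dvd_one)
    (by simpa [← eU, ← eV] using (hs P hP).2.2.2)
  choose! c u b' ε χ hc hb hε hχ1 hχ2 hz using hloc
  have eUx : ∀ z, U + z ^ 2 = (U0 + z) ^ 2 + X * a0 ^ 2 := fun z => by
    rw [eU, CharTwo.add_sq]; ring
  simp only [one_mul, zero_mul, add_zero, ← eUx] at hz
  obtain ⟨w0, w1, hw1⟩ : IsCoprime V1 (∏ P ∈ s, P) := IsCoprime.prod_right fun P hP =>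
    ((hs P hP).2.1.coprime_iff_not_dvd.2 (hs P hP).2.2.1).symm
  have hw1' : V1 ∣ w1 * ∏ P ∈ s, P - 1 := ⟨-w0, by linear_combination hw1⟩
  set H : k[X] → k[X] := fun z => X * a0 ^ 2 * b ^ 2 + a0 ^ 3 * (U0 + z) + X * b ^ 3 * V0 with hH
  set κ : ℝ := psi (((U.natDegree + 1) / 2 + U.natDegree * (V.natDegree + 1) : ℕ) : k) *
    ∏ P ∈ s, ε P with hκ
  refine ⟨fun x => (κ * DEC2_a V1 (U + x ^ 2) (H x * w1)) ^ e, fun x => (∏ P ∈ s, χ P x) ^ e,
    C (e : k) * (X * a0 ^ 6), fun P => e * c P, u, b', fun x => ?_, fun x y => ?_, fun x y => ?_,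
    fun x => ?_, ?_, fun P hP => ⟨fun h => ?_, hb P hP, fun z => (hz P hP z).1⟩, fun z hx => ?_⟩
  · have h1 : |κ| = 1 := by
      rw [hκ, abs_mul, abs_psi, one_mul]
      rcases DEC2_sign s ε hε with h | h <;> simp [h]
    rw [abs_pow, abs_mul, h1, one_mul]
    exact pow_le_one₀ (abs_nonneg _) (DEC2_abs _ _ _)
  · show (κ * _) ^ e = (κ * _) ^ e
    rw [DEC2_congr (U' := U + x ^ 2) (H' := H x * w1)]
    · rw [← AdjoinRoot.mk_eq_mk]
      simp only [map_add, map_mul, map_pow, AdjoinRoot.mk_self, zero_mul, add_zero]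
    · rw [← AdjoinRoot.mk_eq_mk]
      simp only [hH, map_add, map_mul, map_pow, AdjoinRoot.mk_self, zero_mul, add_zero]
  · simp only [prod_congr rfl fun P hP => hχ1 P hP x y, prod_mul_distrib, mul_pow]
  · rcases DEC2_sign s (fun P => χ P x) (fun P hP => hχ2 P hP _) with h | h <;>
      simp [h, neg_one_pow_eq_or]
  · have e3 := natDegree_derivative_lt (p := U) (by omega)
    rw [show derivative U = a0 ^ 2 by rw [eU, derivative_sq_add], natDegree_pow] at e3
    have e4 := (natDegree_C_mul_le (e : k) _).trans (natDegree_mul_le_of_le natDegree_X_le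
      (natDegree_pow_le (p := a0) (n := 6)))
    omega
  · obtain ⟨j, rfl⟩ := h
    simpa [h2] using hc P hP
  have hlt : (z ^ 2).natDegree < U.natDegree := by rwa [natDegree_pow]
  have hm : (U + z ^ 2).Monic := hU.add_of_left (degree_lt_degree hlt)
  have hdx : (U + z ^ 2).natDegree = U.natDegree := natDegree_add_eq_left_of_natDegree_lt hlt
  rw [res_C_mul, ← psi_pow, ← prod_congr rfl fun P hP => lk_pow (hs P hP).2.1 _ _ he, prod_pow,
    ← mul_pow, ← mul_pow, ← mul_pow]
  congr 1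
  by_cases hco : IsCoprime (U + z ^ 2) V
  · obtain ⟨w, w', hw⟩ := hco
    have hw2 : V ∣ w * (U + z ^ 2) - 1 := ⟨-w', by linear_combination hw⟩
    have f3 : ∏ P ∈ s, lp P (w * H z) (derivative V) =
        ∏ P ∈ s, ε P * χ P z * lk P (c P) (u P + b' P * z) := prod_congr rfl fun P hP => by
      rw [hdV]
      exact (hz P hP z).2 w ((hPV P hP).trans hw2)
    rw [hFORM k _ V _ _ V0 b w (eUx z) eV hm hV0 (hdx ▸ hd) hw2, hdx,
      DEC2_eq ((hV ▸ dvd_mul_right V1 _ : V1 ∣ V).trans hw2) (H z * w1), hκ, ← mul_assoc w,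
      psi_add, psi_add, hSPLIT k V V1 w1 (w * H z) s hV1 hV
      (fun P hP => ⟨(hs P hP).1, (hs P hP).2.1, (hs P hP).2.2.1⟩) hw1', f3, prod_mul_distrib,
      prod_mul_distrib]
    ring
  · rw [mu_eo_eq_zero hco]
    by_cases h1 : ∃ w, V1 ∣ w * (U + z ^ 2) - 1
    · obtain ⟨w, w', hw⟩ := h1
      by_cases h3 : ∃ P ∈ s, P ∣ U + z ^ 2
      · obtain ⟨P, hP, h3⟩ := h3
        rw [prod_eq_zero hP (f := fun P => lk P (c P) (u P + b' P * z))
          (by rw [lk, if_pos ((hz P hP z).1.2 h3)])]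
        simp
      · push Not at h3
        refine absurd ?_ hco
        rw [hV]
        exact IsCoprime.mul_right ⟨w, -w', by linear_combination hw⟩
          (IsCoprime.prod_right fun P hP =>
            ((hs P hP).2.1.coprime_iff_not_dvd.2 (h3 P hP)).symm)
    · rw [DEC2_a, dif_neg h1]
      simp

end Pool.Agent.P.MP_e94e4b_nt.W
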