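import Pool.Agent.P.MP_e94e4b_nt.W.Loc
import Pool.Agent.P.MP_8be758_nt.C2.TCOR2
import Pool.Agent.P.MP_8be758_nt.C2.TCORE2

/-! The van der Corput step for products of shifted Moebius values. -/

namespace Pool.Agent.P.MP_e94e4b_nt.W

open Polynomial Finset Pool.Agent.P.MP_8be758_nt.C2
open scoped Classical

variable {k : Type} [Field k] [Finite k] [CharP k 2]

theorem cor (hINF : S_INF) (hCOMP : S_COMP) (hLOC : S_LOC) {ι : Type} (t : Finset ι)
    (U Cn : ι → k[X]) (V h : k[X]) (s : Finset k[X]) (c u b : ι → k[X] → k[X]) {n L L0 dh : ℕ}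
    (hU : ∀ i ∈ t, (U i).Monic ∧ (U i).natDegree = n ∧ (Cn i).natDegree + 2 ≤ 3 * n) (hV : V ≠ 0)
    (hs : ∀ P ∈ s, P.Monic ∧ Irreducible P ∧ (∃ i ∈ t, ¬ P ∣ c i P) ∧
      (∀ i ∈ t, ¬ P ∣ b i P ∧ ∀ z, P ∣ u i P + b i P * z ↔ P ∣ U i + z ^ 2) ∧
      ∀ i ∈ t, ∀ j ∈ t, (P ∣ U i + U j → i = j) ∧ ¬ P ∣ U i + U j + h ^ 2)
    (hL : 1 ≤ L) (hLL : L ≤ L0) (hLs : L ≤ ∑ P ∈ s, P.natDegree) (hh : h.natDegree ≤ dh)
    (hdh : dh < L0) (hn : 2 * L0 ≤ n + 1) (c1 : 2 * dh + 8 * L ≤ 2 * V.natDegree + 3 * n + 8)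
    (c2 : 6 * dh + 4 * L ≤ 2 * V.natDegree + 3 * n + 4) (β : k[X] → ℝ)
    (hβ : ∀ z, β z = ∏ i ∈ t, (psi (res ((U i + z ^ 2) * V ^ 2) (Cn i)) *
      ∏ P ∈ s, lk P (c i P) (u i P + b i P * z))) :
    |∑ x ∈ low k L0, β x * β (x + h)| * (Nat.card k : ℝ) ^ L ≤ (Nat.card k : ℝ) ^ L0 *
      ((14 * t.card + 9) ^ s.card * √((Nat.card k : ℝ) ^ (∑ P ∈ s, P.natDegree))) := by
  have h2 : (2 : k[X]) = 0 := CharTwo.two_eq_zero
  have hq0 : (0 : ℝ) ≤ Nat.card k := Nat.cast_nonneg _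
  rw [← COR2_prod s _ _ hq0]
  have inner : ∀ x0 ∈ low k L0, |∑ y ∈ low k L, β (x0 + y) * β (x0 + y + h)| ≤
      ∏ P ∈ s, (14 * t.card + 9) * √((Nat.card k : ℝ) ^ P.natDegree) := by
    intro x0 hx0
    have hx := natDegree_le_of_mem_low hx0
    obtain ⟨χ, hχ⟩ : ∃ χ : k[X] → ℝ, ∀ y, χ y = psi (∑ i ∈ t, res (V ^ 2 * ((U i + x0 ^ 2) *
      (U i + x0 ^ 2 + h ^ 2)) ^ 2) (Cn i * h ^ 2 * ((y ^ 2) ^ 2 + y ^ 2 * h ^ 2))) :=
      ⟨_, fun _ => rfl⟩
    obtain ⟨φ, hφ⟩ : ∃ φ : k[X] → k[X] → ℝ, ∀ P y, φ P y = ∏ i ∈ t.disjSum t,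
      lk P (Sum.elim (c · P) (c · P) i) (Sum.elim (fun i => u i P + b i P * x0)
        (fun i => u i P + b i P * (x0 + h)) i + Sum.elim (b · P) (b · P) i * y) :=
      ⟨_, fun _ _ => rfl⟩
    have hterm : ∀ y ∈ low k L, β (x0 + y) * β (x0 + y + h) = psi (∑ i ∈ t, res (V ^ 2 *
        ((U i + x0 ^ 2) * (U i + x0 ^ 2 + h ^ 2))) (Cn i * h ^ 2)) * (χ y * ∏ P ∈ s, φ P y) := by
      intro y hy
      have hyd := natDegree_le_of_mem_low hy
      simp only [hβ, hχ, hφ, prod_disjSum, Sum.elim_inl, Sum.elim_inr, psi_sum, ← prod_mul_distrib]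
      rw [prod_comm (s := s), ← prod_mul_distrib, ← prod_mul_distrib]
      refine prod_congr rfl fun i hi => ?_
      obtain ⟨u1, u2, u3⟩ := hU i hi
      have d0 : (x0 ^ 2).natDegree < (U i).natDegree := by rw [natDegree_pow]; omega
      have d1 := natDegree_add_eq_left_of_natDegree_lt d0
      have d2 : ((y ^ 2) ^ 2 + y ^ 2 * h ^ 2).natDegree ≤ _ :=
        (natDegree_add_le _ _).trans (max_le_max natDegree_pow_le natDegree_mul_le)
      have hI := hINF k (V ^ 2) (Cn i) (U i + x0 ^ 2) (h ^ 2) (y ^ 2)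
        (u1.add_of_left (degree_lt_degree d0)) (pow_ne_zero _ hV)
        (by rw [natDegree_pow]; omega) (by rw [natDegree_pow]; omega)
        (by simp only [natDegree_pow] at d2 ⊢; omega)
      rw [mul_mul_mul_comm, ← psi_add, CharTwo.add_sq (x0 + y), CharTwo.add_sq x0,
        ← add_assoc (U i), ← add_assoc (U i), ← add_assoc (U i), hI, psi_add, ← prod_mul_distrib,
        mul_assoc]
      congr 2
      exact prod_congr rfl fun P _ => by congr 2 <;> ring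
    rw [sum_congr rfl hterm, ← mul_sum, abs_mul, abs_psi, one_mul]
    refine hCOMP k s φ _ χ L (fun P hP => ⟨(hs P hP).1, (hs P hP).2.1⟩) (fun P _ x y => ?_)
      (fun P hP l => ?_) (fun x y => ?_) (fun y => by rw [hχ]; exact psi_eq _) hLs
    · simp only [hφ]
      exact prod_congr rfl fun i _ =>
        lk_congr (by simp) ⟨Sum.elim (b · P) (b · P) i * y, by ring⟩
    · obtain ⟨p1, p2, ⟨i0, p3⟩, p4, p5⟩ := hs P hP
      simp only [hφ]
      refine (lks hLOC _ _ _ _ l p1 p2 ?_ ?_ ⟨Sum.inl i0, by simpa using p3⟩).trans_eq (by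
        rw [card_disjSum]; push_cast; ring)
      · rintro (i | i) hi <;> exact (p4 i (by simpa using hi)).1
      · rintro (i | i) hi (j | j) hj z a1 a2 <;>
          simp only [inl_mem_disjSum, inr_mem_disjSum, Sum.elim_inl, Sum.elim_inr, add_assoc,
            ← mul_add] at hi hj a1 a2 <;>
          rw [(p4 i hi).2] at a1 <;> rw [(p4 j hj).2] at a2
        · rw [(p5 i hi j hj).1 (by
            convert dvd_add a1 a2 using 1; linear_combination -(x0 + z) ^ 2 * h2)]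
        · exact absurd (by
            convert dvd_add a1 a2 using 1
            linear_combination -((x0 + z) ^ 2 + (x0 + z) * h) * h2) (p5 i hi j hj).2
        · exact absurd (by
            convert dvd_add a1 a2 using 1
            linear_combination -((x0 + z) ^ 2 + (x0 + z) * h) * h2) (p5 i hi j hj).2
        · rw [(p5 i hi j hj).1 (by
            convert dvd_add a1 a2 using 1; linear_combination -(x0 + (h + z)) ^ 2 * h2)]
    · simp only [hχ, ← psi_add, ← sum_add_distrib, ← res_add, CharTwo.add_sq]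
      congr 1
      exact sum_congr rfl fun i _ => by congr 1; ring
  have havg := sum_avg (low k L0) (low k L) (fun y => y)
    (fun t ht g hg => add_mem_low hg (low_mono hLL ht)) fun x => β x * β (x + h)
  rw [card_low, Nat.cast_pow] at havg
  rw [← abs_of_nonneg (pow_nonneg hq0 L), ← abs_mul, mul_comm, havg]
  refine (abs_sum_le_sum_abs _ _).trans ((sum_le_sum inner).trans_eq ?_)
  rw [sum_const, card_low, nsmul_eq_mul, Nat.cast_pow]

theorem core (hFORM : S_FORM) (hSPLIT : S_SPLIT) (hDLOC : S_DLOC) (hINF : S_INF) (hCOMP : S_COMP)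
    (hLOC : S_LOC) (hVDC : S_VDC) {ι : Type} (t : Finset ι) (U : ι → k[X]) (e : ι → ℕ)
    {V V1 : k[X]} {s : Finset k[X]} {n r K H D1 L0 : ℕ}
    (hU : ∀ i ∈ t, (U i).Monic ∧ (U i).natDegree = n ∧ e i ≠ 0) (he : ∃ i ∈ t, Odd (e i))
    (hr : t.card ≤ r) (hV1 : V1 ≠ 0) (hV : V = V1 * ∏ P ∈ s, P) (hVU : V.natDegree < n)
    (hK : s.card ≤ K) (hne : s.Nonempty)
    (hs : ∀ P ∈ s, P.Monic ∧ Irreducible P ∧ ¬ P ∣ V1 ∧ H ≤ P.natDegree ∧
      2 * D1 + 1 ≤ P.natDegree ∧ ∀ i ∈ t, ¬ P ∣ kap 1 (U i) V ∧ ∀ j ∈ t, P ∣ U i + U j → i = j)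
    (n1 : V1.natDegree + H < L0) (n2 : 2 * L0 ≤ n + 1)
    (n3 : V.natDegree + 2 * D1 + 1 ≤ 2 * L0 + V1.natDegree) (n4 : 6 * H + 8 * D1 ≤ n) :
    (∑ x ∈ low k L0, ∏ i ∈ t, mu (eo (U i + x ^ 2) V) ^ e i) ^ 2 ≤
      ((Nat.card k : ℝ) ^ L0) ^ 2 * (K * r ^ 2 / 2 ^ H + (14 * r + 9) ^ K / 2 ^ D1) := by
  have h2 : (2 : k[X]) = 0 := CharTwo.two_eq_zero
  have hq : (2 : ℝ) ≤ (Nat.card k : ℝ) := by exact_mod_cast two_le_card (k := k)
  have hd := fun i (hi : i ∈ t) => dec hFORM hSPLIT hDLOC (hU i hi).1 hV1 hV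
    ((hU i hi).2.1 ▸ hVU) (fun P hP => ⟨(hs P hP).1, (hs P hP).2.1, (hs P hP).2.2.1,
      ((hs P hP).2.2.2.2.2 i hi).1⟩) (hU i hi).2.2
  choose! a χ Cn c u b ha1 ha2 hχ1 hχ2 hCn hcb hdec using hd
  obtain ⟨β, hβ⟩ : ∃ β : k[X] → ℝ, ∀ z, β z = ∏ i ∈ t, (psi (res ((U i + z ^ 2) * V ^ 2) (Cn i)) *
      ∏ P ∈ s, lk P (c i P) (u i P + b i P * z)) := ⟨_, fun _ => rfl⟩
  have hβ1 : ∀ x, |β x| ≤ 1 := fun x => by
    rw [hβ, Finset.abs_prod]
    refine prod_le_one (fun _ _ => abs_nonneg _) fun i _ => ?_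
    rw [abs_mul, abs_psi, one_mul, Finset.abs_prod]
    exact prod_le_one (fun _ _ => abs_nonneg _) (fun _ _ => abs_lk_le _ _ _)
  have hpm : (∏ P ∈ s, P).Monic := monic_prod_of_monic _ _ fun P hP => (hs P hP).1
  have hV0 : V ≠ 0 := by rw [hV]; exact mul_ne_zero hV1 hpm.ne_zero
  have hdV : V.natDegree = V1.natDegree + ∑ P ∈ s, P.natDegree := by
    rw [hV, natDegree_mul hV1 hpm.ne_zero, natDegree_prod_of_monic _ _ fun P hP => (hs P hP).1]
  have hd2 : 2 * D1 + 1 ≤ ∑ P ∈ s, P.natDegree := by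
    obtain ⟨P, hP⟩ := hne
    exact (hs P hP).2.2.2.2.1.trans
      (single_le_sum (f := fun P : k[X] => P.natDegree) (fun _ _ => Nat.zero_le _) hP)
  obtain ⟨ξ, hξ⟩ : ∃ ξ : k[X] → ℝ, ∀ z, ξ z = ∏ i ∈ t, χ i z := ⟨_, fun _ => rfl⟩
  have hξ2 : ∀ z, ξ z = 1 ∨ ξ z = -1 := fun z => hξ z ▸ DEC2_sign t _ fun i hi => hχ2 i hi z
  have hterm : ∑ x ∈ low k L0, ∏ i ∈ t, mu (eo (U i + x ^ 2) V) ^ e i =
      ∑ x ∈ low k L0, (∏ i ∈ t, a i x) * (ξ x * β x) := by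
    refine sum_congr rfl fun x hx => ?_
    have h1 := natDegree_le_of_mem_low hx
    rw [hβ, hξ, ← prod_mul_distrib, ← prod_mul_distrib]
    exact prod_congr rfl fun i hi => hdec i hi x (by rw [(hU i hi).2.1]; omega)
  have hv := hVDC k (fun x => ∏ i ∈ t, a i x) (fun x => ξ x * β x) V1 L0 H n1.le
    (fun x => by
      rw [Finset.abs_prod]
      exact prod_le_one (fun _ _ => abs_nonneg _) fun i hi => ha1 i hi x)
    fun x y => prod_congr rfl fun i hi => ha2 i hi x y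
  have habs : ∀ h : k[X], |∑ x ∈ low k L0, ξ x * β x * (ξ (x + h) * β (x + h))| =
      |∑ x ∈ low k L0, β x * β (x + h)| := fun h => by
    rw [sum_congr rfl (g := fun x => ξ h * (β x * β (x + h))) fun x _ => ?_, ← mul_sum, abs_mul]
    · rcases hξ2 h with h | h <;> simp [h]
    · rw [show ξ (x + h) = ξ x * ξ h by
        rw [hξ, hξ, hξ, ← prod_mul_distrib]; exact prod_congr rfl fun i hi => hχ1 i hi x h]
      rcases hξ2 x with h | h <;> rw [h] <;> ring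
  set Q : ℝ := (Nat.card k : ℝ) ^ L0 with hQ
  have hQ0 : 0 < Q := by positivity
  set η : ℝ := (14 * r + 9) ^ K / 2 ^ D1 with hη
  have hone : ∀ y ∈ low k H, |∑ x ∈ low k L0, β x * β (x + V1 * y)| ≤
      Q * (if ∃ p ∈ s ×ˢ t ×ˢ t, p.1 ∣ U p.2.1 + U p.2.2 + (V1 * y) ^ 2 then 1 else 0) + Q * η := by
    intro y hy
    split_ifs with hbad
    · refine (abs_sum_le_sum_abs _ _).trans ((sum_le_card_nsmul _ _ (1 : ℝ) fun x _ => ?_).trans ?_)
      · rw [abs_mul]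
        exact mul_le_one₀ (hβ1 _) (abs_nonneg _) (hβ1 _)
      · rw [card_low, nsmul_eq_mul, Nat.cast_pow]
        exact le_add_of_nonneg_right (by positivity)
    · have h1 := natDegree_le_of_mem_low hy
      have h3 := natDegree_mul_le (p := V1) (q := y)
      obtain ⟨i0, o1, o2⟩ := he
      have h4 := cor hINF hCOMP hLOC t U Cn V (V1 * y) s c u b (n := n) (L0 := L0)
        (L := (∑ P ∈ s, P.natDegree + 1) / 2 + D1) (dh := V1.natDegree + H)
        (fun i hi => ⟨(hU i hi).1, (hU i hi).2.1, (hU i hi).2.1 ▸ hCn i hi⟩) hV0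
        (fun P hP => ⟨(hs P hP).1, (hs P hP).2.1, ⟨i0, o1, (hcb i0 o1 P hP).1 o2⟩,
          fun i hi => (hcb i hi P hP).2, fun i hi j hj => ⟨((hs P hP).2.2.2.2.2 i hi).2 j hj,
            fun h => hbad ⟨(P, i, j), by simp [hP, hi, hj], h⟩⟩⟩)
        (by omega) (by omega) (by omega) (by omega) n1 n2 (by omega) (by omega) β hβ
      rw [mul_zero, zero_add]
      refine (CORE2_num _ _ _ Q _ D1 hq (abs_nonneg _) (by positivity) hQ0.le h4).trans ?_
      have : (t.card : ℝ) ≤ r := by exact_mod_cast hr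
      have h5 : (14 * (t.card : ℝ) + 9) ^ s.card ≤ (14 * r + 9) ^ K :=
        (pow_le_pow_left₀ (by positivity) (by linarith) _).trans
          (pow_le_pow_right₀ (by have : (0 : ℝ) ≤ r := Nat.cast_nonneg r; linarith) hK)
      rw [hη]
      gcongr
  have hbad : ((low k H).filter fun y =>
      ∃ p ∈ s ×ˢ t ×ˢ t, p.1 ∣ U p.2.1 + U p.2.2 + (V1 * y) ^ 2).card ≤ K * r ^ 2 := by
    have hx := fun y (hy : y ∈ (low k H).filter fun y =>
      ∃ p ∈ s ×ˢ t ×ˢ t, p.1 ∣ U p.2.1 + U p.2.2 + (V1 * y) ^ 2) => (mem_filter.1 hy).2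
    have : Nonempty ι := ⟨he.choose⟩
    choose! f f1 f2 using hx
    refine (card_le_card_of_injOn f f1 fun x hx y hy e => ?_).trans (by
      rw [card_product, card_product, sq]; gcongr)
    obtain ⟨-, p2, p3, p4, -⟩ := hs _ (mem_product.1 (f1 x hx)).1
    have d1 := dvd_add (f2 x hx) (e ▸ f2 y hy)
    rw [show U (f x).2.1 + U (f x).2.2 + (V1 * x) ^ 2 + (U (f x).2.1 + U (f x).2.2 + (V1 * y) ^ 2) =
      (V1 * (x - y)) ^ 2 by
        linear_combination (U (f x).2.1 + U (f x).2.2 + V1 ^ 2 * x * y) * h2] at d1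
    exact sub_eq_zero.1 (eq_zero_of_mem_low (sub_mem_low (mem_filter.1 hx).1 (mem_filter.1 hy).1)
      ((p2.prime.dvd_or_dvd (p2.prime.dvd_of_dvd_pow d1)).resolve_left p3) p4)
  have hsum := sum_le_sum hone
  rw [sum_add_distrib, ← mul_sum, sum_boole, sum_const, card_low, nsmul_eq_mul,
    Nat.cast_pow] at hsum
  simp only [habs] at hv
  rw [hterm]
  have hH : (0 : ℝ) < (Nat.card k : ℝ) ^ H := by positivity
  have hK1 : (K : ℝ) * r ^ 2 ≤ K * r ^ 2 / 2 ^ H * (Nat.card k : ℝ) ^ H := by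
    rw [div_mul_eq_mul_div, le_div_iff₀ (by positivity)]
    gcongr
  have hK2 := ((Nat.cast_le (α := ℝ)).2 hbad).trans (by push_cast; exact hK1)
  refine le_of_mul_le_mul_right (hv.trans ((mul_le_mul_of_nonneg_left (hsum.trans (add_le_add
    (mul_le_mul_of_nonneg_left hK2 hQ0.le) le_rfl)) hQ0.le).trans_eq (by ring))) hH

end Pool.Agent.P.MP_e94e4b_nt.W
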