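import Pool.Agent.P.MP_e94e4b_nt.W.Core
import Pool.Agent.P.MP_8be758_nt.C2.TMAIN2

/-! Summation over a window around a square. -/

namespace Pool.Agent.P.MP_e94e4b_nt.W

open Polynomial Finset Pool.Agent.P.MP_8be758_nt.C2 UniqueFactorizationMonoid
open scoped Classical

variable {k : Type} [Field k] [Finite k] [CharP k 2]

theorem bad_kap {ι : Type} (t : Finset ι) (U : ι → k[X]) (V : k[X]) (s : Finset k[X]) {D M : ℕ}
    (hs : ∀ P ∈ s, Irreducible P ∧ D ≤ P.natDegree) (hM : 2 * D + 1 < M) :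
    (((low k M).filter fun a => ∃ p ∈ s ×ˢ t, p.1 ∣ kap 1 (U p.2 + a) V).card : ℝ) * 2 ^ D ≤
      s.card * t.card * (Nat.card k : ℝ) ^ M := by
  have h2 : (2 : k[X]) = 0 := CharTwo.two_eq_zero
  have hq : (2 : ℝ) ≤ (Nat.card k : ℝ) := by exact_mod_cast two_le_card (k := k)
  have e1 : ∀ W y : k[X], kap 1 (W + X * y ^ 2) V = kap 1 W V + y ^ 4 := fun W y => by
    have := derivative_sq_add (0 : k[X]) y
    rw [zero_pow two_ne_zero, zero_add] at this
    rw [kap, kap, mul_one, mul_one, derivative_add, this, CharTwo.add_sq]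
    ring
  have hK : ∀ a ∈ low k M, ∑ y ∈ low k D, (if ∃ p ∈ s ×ˢ t,
      p.1 ∣ kap 1 (U p.2 + (a + X * y ^ 2)) V then 1 else 0 : ℝ) ≤ s.card * t.card := by
    intro a _
    rw [sum_boole, ← Nat.cast_mul, Nat.cast_le, ← card_product]
    refine card_le_card_of_forall_subsingleton (fun y p => p.1 ∣ kap 1 (U p.2 + a) V + y ^ 4)
      (fun y hy => ?_) fun p hp x hx y hy => ?_
    · simpa only [← add_assoc, e1] using (mem_filter.1 hy).2
    · obtain ⟨p1, p2⟩ := hs _ (mem_product.1 hp).1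
      have d1 := dvd_add hx.2 hy.2
      rw [show kap 1 (U p.2 + a) V + x ^ 4 + (kap 1 (U p.2 + a) V + y ^ 4) = (x - y) ^ 4 by
        linear_combination (kap 1 (U p.2 + a) V + 2 * x ^ 3 * y - 3 * x ^ 2 * y ^ 2 +
          2 * x * y ^ 3) * h2] at d1
      exact sub_eq_zero.1 (eq_zero_of_mem_low (sub_mem_low (mem_filter.1 hx.1).1
        (mem_filter.1 hy.1).1) (p1.prime.dvd_of_dvd_pow d1) p2)
  have h1 := sum_avg (low k M) (low k D) (fun y => X * y ^ 2) (fun y hy g hg => add_mem_low hg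
    (mem_low_of_natDegree_lt (by
      have := natDegree_le_of_mem_low hy
      have := natDegree_mul_le_of_le natDegree_X_le (natDegree_pow_le (p := y) (n := 2))
      omega))) fun a => if ∃ p ∈ s ×ˢ t, p.1 ∣ kap 1 (U p.2 + a) V then 1 else 0
  have h3 := sum_le_card_nsmul _ _ _ hK
  rw [← h1, sum_boole, card_low, card_low, nsmul_eq_mul, Nat.cast_pow, Nat.cast_pow] at h3
  refine le_trans ?_ (h3.trans_eq (mul_comm _ _))
  rw [mul_comm]
  gcongr

omit [CharP k 2] in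
theorem bad_div {E : k[X]} (hE : E ≠ 0) {N J : ℕ} (hd : E.natDegree ≤ N) (hN : 0 < N) :
    (((low k N).filter fun V => ∃ P : k[X], P.Monic ∧ Irreducible P ∧ P ∣ V ∧
      P ∣ E ∧ N ≤ J * P.natDegree).card : ℝ) * 2 ^ (N / J) ≤ J * (Nat.card k : ℝ) ^ N := by
  have hq : 2 ≤ Nat.card k := two_le_card
  set T := (normalizedFactors E).toFinset.filter fun P => N ≤ J * P.natDegree with hT
  have hm : ∀ P ∈ T, P.Monic ∧ Irreducible P ∧ P ∣ E ∧ N ≤ J * P.natDegree := fun P hP => by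
    obtain ⟨a1, a2⟩ := mem_filter.1 hP
    obtain ⟨b1, b2, b3⟩ := (Polynomial.mem_normalizedFactors_iff hE).1 (Multiset.mem_toFinset.1 a1)
    exact ⟨b2, b1, b3, a2⟩
  have h1 : T.card ≤ J := by
    have a1 : ∏ P ∈ T, P ∣ E := prod_dvd_of_coprime (fun P hP Q hQ e =>
      (hm P hP).2.1.coprime_iff_not_dvd.2 fun h => e (eq_of_monic_of_associated (hm P hP).1
        (hm Q hQ).1 ((hm P hP).2.1.associated_of_dvd (hm Q hQ).2.1 h))) fun P hP => (hm P hP).2.2.1
    have a2 := natDegree_le_of_dvd a1 hE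
    rw [natDegree_prod_of_monic _ _ fun P hP => (hm P hP).1] at a2
    have a3 := card_nsmul_le_sum T (fun P => J * P.natDegree) N fun P hP => (hm P hP).2.2.2
    rw [← mul_sum, smul_eq_mul] at a3
    exact Nat.le_of_mul_le_mul_right (a3.trans (Nat.mul_le_mul_left J (a2.trans hd))) hN
  have h3 : ((low k N).filter fun V => ∃ P : k[X], P.Monic ∧ Irreducible P ∧ P ∣ V ∧
      P ∣ E ∧ N ≤ J * P.natDegree) ⊆ T.biUnion fun P => (low k (N - N / J)).image (P * ·) := by
    intro V hV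
    obtain ⟨v1, P, p1, p2, ⟨y, rfl⟩, p3, p4⟩ := mem_filter.1 hV
    refine mem_biUnion.2 ⟨P, mem_filter.2 ⟨Multiset.mem_toFinset.2
      ((Polynomial.mem_normalizedFactors_iff hE).2 ⟨p2, p1, p3⟩), p4⟩, mem_image_of_mem _ ?_⟩
    rcases eq_or_ne y 0 with rfl | hy
    · exact zero_mem_low _
    have a1 := natDegree_lt_of_mem_low v1 (mul_ne_zero p1.ne_zero hy)
    have a2 : N / J ≤ P.natDegree := Nat.div_le_of_le_mul p4
    rw [natDegree_mul p1.ne_zero hy] at a1
    exact mem_low_of_natDegree_lt (by omega)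
  have h4 := (card_le_card h3).trans (card_biUnion_le_card_mul _ _ _ fun P _ =>
    card_image_le.trans (card_low _).le)
  have h5 := Nat.mul_le_mul (h4.trans (Nat.mul_le_mul_right _ h1)) (Nat.pow_le_pow_left hq (N / J))
  rw [mul_assoc, ← pow_add, Nat.sub_add_cancel (Nat.div_le_self _ _)] at h5
  exact_mod_cast h5

omit [Finite k] [CharP k 2] in
theorem regroup {V V1 : k[X]} {s : Finset k[X]} {K D N : ℕ} (h : Good K D N V V1 s)
    (p : k[X] → Prop) (hp : ∀ P ∈ s, ¬ p P → 10 * K * P.natDegree < N)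
    (hV : N < 5 * V.natDegree) : ∃ (V2 : k[X]) (s' : Finset k[X]), V2 ≠ 0 ∧ V = V2 * ∏ P ∈ s', P ∧
      s'.card ≤ K ∧ s'.Nonempty ∧ (∀ P ∈ s', P.Monic ∧ Irreducible P ∧ ¬ P ∣ V2 ∧
      D ≤ P.natDegree ∧ p P) ∧ D ≤ V2.natDegree ∧ 5 * V2.natDegree ≤ N := by
  obtain ⟨a1, a2, a3, a4, a5, a6⟩ := h
  have h1 : V1 ≠ 0 := fun e => a3.elim fun P hP => (a4 P hP).2.2.2 (e ▸ dvd_zero P)
  have m1 : ∀ P ∈ s.filter fun P => ¬ p P, P.Monic := fun P hP => (a4 P (mem_filter.1 hP).1).1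
  have h2 := (monic_prod_of_monic _ _ m1).ne_zero
  have d1 := natDegree_mul h1 h2
  have d2 : 10 * (∏ P ∈ s.filter fun P => ¬ p P, P).natDegree ≤ N := by
    have := sum_le_card_nsmul (s.filter fun P => ¬ p P) (fun P => K * (10 * P.natDegree)) N
      fun P hP => by rw [mul_left_comm, ← mul_assoc]; exact (hp P (mem_filter.1 hP).1
        (mem_filter.1 hP).2).le
    rw [← mul_sum, ← mul_sum, ← natDegree_prod_of_monic _ _ m1, smul_eq_mul] at this
    exact Nat.le_of_mul_le_mul_left (this.trans (Nat.mul_le_mul_right N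
      ((card_filter_le _ _).trans a2))) (a3.card_pos.trans_le a2)
  have e : V = (V1 * ∏ P ∈ s.filter fun P => ¬ p P, P) * ∏ P ∈ s.filter p, P := by
    rw [mul_assoc, prod_filter_not_mul_prod_filter, a1]
  refine ⟨_, s.filter p, mul_ne_zero h1 h2, e, (card_filter_le _ _).trans a2,
    nonempty_iff_ne_empty.2 fun h => ?_, fun P hP => ?_, by omega, by omega⟩
  · rw [h, prod_empty, mul_one] at e
    rw [e] at hV
    omega
  · obtain ⟨b1, b2⟩ := mem_filter.1 hP
    obtain ⟨c1, c2, c3, c4⟩ := a4 P b1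
    refine ⟨c1, c2, fun h => (c2.prime.dvd_or_dvd h).elim c4 fun h => DEC2_nd
      (fun P hP => ⟨(a4 P hP).1, (a4 P hP).2.1⟩) b1 (h.trans (prod_dvd_prod_of_subset _ _ _
        fun Q hQ => mem_erase.2 ⟨?_, (mem_filter.1 hQ).1⟩)), c3, b2⟩
    rintro rfl
    exact (mem_filter.1 hQ).2 b2

omit [CharP k 2] in
theorem sum_low_eo (m : ℕ) (φ : k[X] → ℝ) : ∑ x ∈ low k m, φ x =
    ∑ V ∈ low k (m / 2), ∑ a ∈ low k ((m + 1) / 2), φ (eo a V) := by
  have key : ∀ a V : k[X], eo a V ∈ low k m ↔ V ∈ low k (m / 2) ∧ a ∈ low k ((m + 1) / 2) := by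
    intro a V
    simp only [mem_low, degree_lt_iff_coeff_zero]
    refine ⟨fun h => ⟨fun j hj => ?_, fun j hj => ?_⟩, fun h j hj => ?_⟩
    · rw [← coeff_eo_odd a, h _ (by omega)]
    · rw [← coeff_eo_even a V, h _ (by omega)]
    · obtain ⟨i, rfl | rfl⟩ := Nat.even_or_odd' j
      · rw [coeff_eo_even, h.2 _ (by omega)]
      · rw [coeff_eo_odd, h.1 _ (by omega)]
  rw [← sum_product']
  refine sum_nbij' (fun x => (odp x, evp x)) (fun p => eo p.2 p.1) (fun x hx => ?_)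
    (fun p hp => (key _ _).2 (mem_product.1 hp)) (fun x _ => eo_evp_odp x)
    (fun p _ => by rw [odp_eo, evp_eo]) fun x _ => by rw [eo_evp_odp]
  exact mem_product.2 ((key _ _).1 (by rwa [eo_evp_odp]))

theorem win (hFORM : S_FORM) (hSPLIT : S_SPLIT) (hDLOC : S_DLOC) (hINF : S_INF) (hCOMP : S_COMP)
    (hLOC : S_LOC) (hVDC : S_VDC) (hTYP : S_TYP) (r : ℕ) {ε : ℝ} (hε : 0 < ε) :
    ∃ m0 : ℕ, ∀ (m : ℕ) (G : k[X]) (t : Finset k[X]) (e : k[X] → ℕ), m0 ≤ m →
      m ≤ 2 * G.natDegree → G.Monic → t.card ≤ r → (∀ c ∈ t, 2 * c.natDegree < m ∧ e c ≠ 0) →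
      (∃ c ∈ t, Odd (e c)) →
      |∑ x ∈ low k m, ∏ c ∈ t, mu (G ^ 2 + x + c ^ 2) ^ e c| ≤ ε * (Nat.card k : ℝ) ^ m := by
  have h2 : (2 : k[X]) = 0 := CharTwo.two_eq_zero
  have hq : (2 : ℝ) ≤ Nat.card k := by exact_mod_cast two_le_card (k := k)
  obtain ⟨δ, hδ, rfl⟩ : ∃ δ : ℝ, 0 < δ ∧ ε = 5 * δ := ⟨ε / 5, by positivity, by ring⟩
  obtain ⟨K, hK⟩ := hTYP k δ hδ
  obtain ⟨H, hH⟩ := MAIN2_ex (K * r ^ 2) (η := δ ^ 2 / 2) (by positivity)
  obtain ⟨D1, hD1⟩ := MAIN2_ex ((14 * r + 9) ^ K) (η := δ ^ 2 / 2) (by positivity)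
  obtain ⟨D0, hD0⟩ := MAIN2_ex (K * r) hδ
  obtain ⟨Z, hZ⟩ := MAIN2_ex (r ^ 2 * (10 * K + 1 : ℕ) + 1) hδ
  obtain ⟨D, hD, hD'⟩ : ∃ D : ℕ, H + 2 * D1 + 1 ≤ D ∧ (K : ℝ) * r / 2 ^ D ≤ δ :=
    ⟨_, Nat.le_add_right _ D0, hD0 _ (Nat.le_add_left _ _)⟩
  obtain ⟨N0, hN0⟩ := hK D
  refine ⟨2 * (N0 + 10 * D + (10 * K + 1) * Z + 2 * Z), fun m G t e hm hn hG hr ht he => ?_⟩
  rw [sum_low_eo]
  obtain ⟨N, hN⟩ : ∃ N, N = m / 2 := ⟨_, rfl⟩
  obtain ⟨M, hM⟩ : ∃ M, M = (m + 1) / 2 := ⟨_, rfl⟩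
  rw [← hN, ← hM, show m = N + M by omega, pow_add]
  have e1 : ∀ a V c : k[X], G ^ 2 + eo a V + c ^ 2 = eo (fr G + fr c + a) V := fun a V c => by
    simp only [eo, map_add, expand_fr]; ring
  simp only [e1]
  have hr' : (t.card : ℝ) ≤ r := by exact_mod_cast hr
  have hQ : ∀ j : ℕ, (0 : ℝ) < (Nat.card k : ℝ) ^ j := fun j => by positivity
  have triv : ∀ (L : ℕ) (f : k[X] → k[X] → k[X]),
      |∑ x ∈ low k L, ∏ c ∈ t, mu (f x c) ^ e c| ≤ (Nat.card k : ℝ) ^ L := fun L f => by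
    refine (abs_sum_le_sum_abs _ _).trans ((sum_le_card_nsmul _ _ (1 : ℝ) fun x _ => ?_).trans ?_)
    · rw [Finset.abs_prod]
      exact prod_le_one (fun _ _ => abs_nonneg _) fun c _ => by
        rw [abs_pow]; exact pow_le_one₀ (abs_nonneg _) (abs_mu_le _)
    · simp [card_low]
  set B3 : k[X] → Prop := fun V => ∃ p ∈ t.offDiag, ∃ P : k[X], P.Monic ∧ Irreducible P ∧ P ∣ V ∧
    P ∣ fr (p.1 + p.2) ∧ N ≤ (10 * K + 1) * P.natDegree with hB3
  have good : ∀ V ∈ low k N, |∑ a ∈ low k M, ∏ c ∈ t, mu (eo (fr G + fr c + a) V) ^ e c| ≤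
      (Nat.card k : ℝ) ^ M * (2 * δ + (if ¬ ∃ V1 s, Good K D N V V1 s then 1 else 0) +
        (if V ∈ low k (N / 5 + 1) then 1 else 0) + if B3 V then 1 else 0) := by
    intro V hV
    have tr := fun x (hx : 1 ≤ x) => (triv M fun a c => eo (fr G + fr c + a) V).trans
      (le_mul_of_one_le_right (hQ M).le hx)
    by_cases c1 : ¬ ∃ V1 s, Good K D N V V1 s
    · exact tr _ (by rw [if_pos c1]; split_ifs <;> linarith)
    by_cases c2 : V ∈ low k (N / 5 + 1)
    · exact tr _ (by rw [if_pos c2]; split_ifs <;> linarith)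
    by_cases c3 : B3 V
    · exact tr _ (by rw [if_pos c3]; split_ifs <;> linarith)
    rw [if_neg c1, if_neg c2, if_neg c3]
    obtain ⟨V1, s, c1⟩ := not_not.1 c1
    have d1 := natDegree_le_of_mem_low hV
    obtain ⟨V2, s, a1, a2, a3, a4, a5, a6, a7⟩ := regroup c1
      (fun P => ∀ i ∈ t, ∀ j ∈ t, P ∣ fr (i + j) → i = j) (fun P hP h => by
        push Not at h
        obtain ⟨i, hi, j, hj, h1, h3⟩ := h
        by_contra h4
        exact c3 ⟨(i, j), mem_offDiag.2 ⟨hi, hj, h3⟩, P, (c1.2.2.2.1 P hP).1, (c1.2.2.2.1 P hP).2.1,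
          c1.1 ▸ (dvd_prod_of_mem _ hP).mul_left _, h1, by rw [add_mul]; omega⟩)
      (by by_contra h; exact c2 (mem_low_of_natDegree_lt (by omega)))
    have av := sum_avg (low k M) (low k ((M + 1) / 2)) (fun x => x ^ 2)
      (fun x hx g hg => add_mem_low hg (mem_low_of_natDegree_lt (by
        have := natDegree_le_of_mem_low hx
        rw [natDegree_pow]; omega))) fun a => ∏ c ∈ t, mu (eo (fr G + fr c + a) V) ^ e c
    have inner : ∀ a ∈ low k M, |∑ x ∈ low k ((M + 1) / 2), ∏ c ∈ t,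
        mu (eo (fr G + fr c + (a + x ^ 2)) V) ^ e c| ≤ (Nat.card k : ℝ) ^ ((M + 1) / 2) *
        (δ + if ∃ p ∈ s ×ˢ t, p.1 ∣ kap 1 (fr G + fr p.2 + a) V then 1 else 0) := by
      intro a ha
      split_ifs with c4
      · exact (triv _ fun x c => eo (fr G + fr c + (a + x ^ 2)) V).trans
          (le_mul_of_one_le_right (hQ _).le (by linarith))
      have d2 := natDegree_le_of_mem_low ha
      have := core hFORM hSPLIT hDLOC hINF hCOMP hLOC hVDC t (fun c => fr G + fr c + a) e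
        (n := G.natDegree) (H := H) (D1 := D1) (L0 := (M + 1) / 2) (fun c hc => by
          have d3 : (fr c + a).natDegree < (fr G).natDegree := by
            have := (ht c hc).1
            refine (natDegree_add_le _ _).trans_lt ?_
            rw [natDegree_fr, natDegree_fr]; omega
          rw [add_assoc, natDegree_add_eq_left_of_natDegree_lt d3, natDegree_fr]
          exact ⟨(hG.map _).add_of_left (degree_lt_degree d3), rfl, (ht c hc).2⟩) he hr a1 a2
        (by omega) a3 a4 (fun P hP => by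
          obtain ⟨p1, p2, p3, p4, p5⟩ := a5 P hP
          refine ⟨p1, p2, p3, by omega, by omega, fun i hi => ⟨fun h => c4 ⟨(P, i),
            mem_product.2 ⟨hP, hi⟩, h⟩, fun j hj h => p5 i hi j hj ?_⟩⟩
          rw [show fr (i + j) = fr i + fr j from Polynomial.map_add _]
          convert h using 1
          linear_combination -(fr G + a) * h2)
        (by omega) (by omega) (by omega) (by omega)
      simp only [add_assoc] at this ⊢
      refine abs_le_of_sq_le_sq' (this.trans ?_) (by positivity) |> abs_le.2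
      rw [mul_pow]
      refine mul_le_mul_of_nonneg_left ?_ (by positivity)
      linarith [hH H le_rfl, hD1 D1 le_rfl]
    have tot := (abs_sum_le_sum_abs _ _).trans (sum_le_sum inner)
    rw [← av, card_low, Nat.cast_pow, abs_mul, abs_of_pos (hQ _), ← mul_sum, sum_add_distrib,
      sum_const, sum_boole, card_low, nsmul_eq_mul, Nat.cast_pow] at tot
    have b1 := bad_kap t (fun c => fr G + fr c) V s (D := D) (M := M)
      (fun P hP => ⟨(a5 P hP).2.1, (a5 P hP).2.2.2.1⟩) (by omega)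
    have a3' : (s.card : ℝ) ≤ K := by exact_mod_cast a3
    rw [div_le_iff₀ (by positivity)] at hD'
    have b2 := le_of_mul_le_mul_right (b1.trans ((mul_le_mul_of_nonneg_right ((mul_le_mul a3' hr'
      (by positivity) (by positivity)).trans hD') (hQ M).le).trans_eq (mul_right_comm _ _ _)))
      (by positivity)
    linarith [le_of_mul_le_mul_left tot (hQ _)]
  have tot := (abs_sum_le_sum_abs _ _).trans (sum_le_sum good)
  rw [← mul_sum, sum_add_distrib, sum_add_distrib, sum_add_distrib, sum_const, sum_boole, sum_boole,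
    sum_boole, card_low, nsmul_eq_mul, Nat.cast_pow] at tot
  have b1 := hN0 N (by omega)
  have z1 := hZ (N / (10 * K + 1)) ((Nat.le_div_iff_mul_le (by omega)).2 (by rw [mul_comm]; omega))
  have z2 := hZ Z le_rfl
  rw [div_le_iff₀ (by positivity)] at z1 z2
  have b2 : (((low k N).filter fun V => V ∈ low k (N / 5 + 1)).card : ℝ) ≤
      δ * (Nat.card k : ℝ) ^ N := by
    have h1 : (((low k N).filter fun V => V ∈ low k (N / 5 + 1)).card : ℝ) ≤
        (Nat.card k : ℝ) ^ (N - Z) := by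
      rw [← Nat.cast_pow, ← card_low, Nat.cast_le]
      exact card_le_card fun V hV => low_mono (by omega) (mem_filter.1 hV).2
    have h3 : 1 ≤ δ * (Nat.card k : ℝ) ^ Z :=
      (le_add_of_nonneg_left (by positivity)).trans (z2.trans (by gcongr))
    rw [show N = Z + (N - Z) by omega, pow_add, ← mul_assoc, Nat.add_sub_cancel' (by omega)]
    exact h1.trans (le_mul_of_one_le_left (hQ _).le h3)
  have b3 : (((low k N).filter B3).card : ℝ) ≤ δ * (Nat.card k : ℝ) ^ N := by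
    have h1 : (low k N).filter B3 ⊆ t.offDiag.biUnion fun p => (low k N).filter fun V =>
        ∃ P : k[X], P.Monic ∧ Irreducible P ∧ P ∣ V ∧ P ∣ fr (p.1 + p.2) ∧
        N ≤ (10 * K + 1) * P.natDegree := fun V hV => by
      obtain ⟨v, p, p1, p2⟩ := mem_filter.1 hV
      exact mem_biUnion.2 ⟨p, p1, mem_filter.2 ⟨v, p2⟩⟩
    have h3 := mul_le_mul_of_nonneg_right ((Nat.cast_le (α := ℝ)).2 ((card_le_card h1).trans
      card_biUnion_le)) (pow_pos two_pos (N / (10 * K + 1))).le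
    rw [Nat.cast_sum, sum_mul] at h3
    have h4 := h3.trans (sum_le_card_nsmul _ _ _ fun p hp => bad_div (fr_ne_zero fun h =>
      (mem_offDiag.1 hp).2.2 (CharTwo.add_eq_zero.1 h)) (by
        have := (ht _ (mem_offDiag.1 hp).1).1
        have := (ht _ (mem_offDiag.1 hp).2.1).1
        have := natDegree_add_le p.1 p.2
        rw [natDegree_fr]; omega) (by omega))
    have h5 : (t.offDiag.card : ℝ) ≤ r ^ 2 := by
      exact_mod_cast (offDiag_card t).trans_le ((Nat.sub_le _ _).trans (by rw [sq]; gcongr))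
    rw [nsmul_eq_mul, ← mul_assoc] at h4
    refine le_of_mul_le_mul_right (h4.trans ?_) (pow_pos two_pos (N / (10 * K + 1)))
    rw [mul_right_comm δ]
    exact mul_le_mul_of_nonneg_right ((mul_le_mul_of_nonneg_right h5 (by positivity)).trans
      (by linarith)) (hQ N).le
  refine tot.trans ?_
  rw [mul_comm ((Nat.card k : ℝ) ^ N) (_ ^ M), mul_left_comm (5 * δ)]
  refine mul_le_mul_of_nonneg_left ?_ (hQ M).le
  have b4 := b1
  convert add_le_add (add_le_add (add_le_add (le_refl ((Nat.card k : ℝ) ^ N * (2 * δ))) b4) b2) b3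
    using 1
  ring

end Pool.Agent.P.MP_e94e4b_nt.W
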