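import Pool.Agent.P.MP_e94e4b_nt.W.Main

/-! Squarefree values in a window and sign patterns. -/

namespace Pool.Agent.P.MP_e94e4b_nt.W

open Polynomial Finset Pool.Agent.P.MP_8be758_nt.C2 UniqueFactorizationMonoid Filter
open scoped Classical

variable {k : Type} [Field k] [Finite k]

theorem cls {P α β : k[X]} (hP : Irreducible P) (hβ : ¬ P ∣ β) (L : ℕ) :
    ((low k L).filter fun y => P ∣ α + β * y).card ≤ Nat.card k ^ (L - P.natDegree) := by
  rcases ((low k L).filter fun y => P ∣ α + β * y).eq_empty_or_nonempty with h | ⟨y0, h0⟩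
  · simp [h]
  rw [← card_low]
  refine (card_le_card fun y hy => ?_).trans (card_image_le (f := fun z => y0 + P * z))
  obtain ⟨z, hz⟩ : P ∣ y - y0 := (hP.prime.dvd_or_dvd (by
    convert dvd_sub (mem_filter.1 hy).2 (mem_filter.1 h0).2 using 1; ring)).resolve_left hβ
  refine mem_image.2 ⟨z, ?_, by rw [← hz]; ring⟩
  rcases eq_or_ne z 0 with rfl | h
  · exact zero_mem_low _
  have := natDegree_lt_of_mem_low (hz ▸ sub_mem_low (mem_filter.1 hy).1 (mem_filter.1 h0).1)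
    (mul_ne_zero hP.ne_zero h)
  rw [natDegree_mul hP.ne_zero h] at this
  exact mem_low_of_natDegree_lt (by omega)

theorem cop (k : Type) [Field k] [Finite k] (r : ℕ) : ∃ δ : ℝ, 0 < δ ∧ ∃ N0 : ℕ, ∀ (N M : ℕ)
    (t : Finset k[X]) (U : k[X] → k[X]), N0 ≤ N → N ≤ M → t.card ≤ r →
    δ * (Nat.card k : ℝ) ^ (N + M) ≤ ∑ V ∈ low k N, ∑ a ∈ low k M,
      if ∀ c ∈ t, IsCoprime (U c + a) V then (1 : ℝ) else 0 := by
  have hq : (2 : ℝ) ≤ Nat.card k := by exact_mod_cast two_le_card (k := k)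
  have hQ : ∀ j : ℕ, (0 : ℝ) < (Nat.card k : ℝ) ^ j := fun j => by positivity
  obtain ⟨Y, hY⟩ := MAIN2_ex (8 * r) one_pos
  obtain ⟨W, hW⟩ : ∃ W : k[X], W = ∏ p ∈ (low k (Y + 2)).erase 0, p := ⟨_, rfl⟩
  have W0 : W ≠ 0 := hW ▸ prod_ne_zero_iff.2 fun p hp => (mem_erase.1 hp).1
  have W1 : ∀ P : k[X], P ≠ 0 → P.natDegree < Y + 2 → P ∣ W := fun P h1 h2 =>
    hW ▸ dvd_prod_of_mem _ (mem_erase.2 ⟨h1, mem_low_of_natDegree_lt h2⟩)
  obtain ⟨N0, hN0⟩ := eventually_atTop.1 (((tendsto_pow_const_div_const_pow_of_one_lt 1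
    (one_lt_two (α := ℝ))).const_mul (4 * r * 2 ^ W.natDegree : ℝ)).eventually
    (eventually_le_nhds ((mul_zero _).trans_lt (one_pos (α := ℝ)))))
  refine ⟨1 / (2 * (Nat.card k : ℝ) ^ W.natDegree), by positivity, N0 + W.natDegree + 1,
    fun N M t U hN hM hr => ?_⟩
  obtain ⟨L, rfl⟩ : ∃ L, N = W.natDegree + L := ⟨N - W.natDegree, by omega⟩
  have hr' : (t.card : ℝ) ≤ r := by exact_mod_cast hr
  have h1 : (low k L).image (1 + W * ·) ⊆ low k (W.natDegree + L) := fun V hV => by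
    obtain ⟨y, hy, rfl⟩ := mem_image.1 hV
    exact add_mem_low (mem_low_of_natDegree_lt (by rw [natDegree_one]; omega))
      (mul_mem_low hy le_rfl)
  refine le_trans ?_ (sum_le_sum_of_subset_of_nonneg h1 fun _ _ _ => by positivity)
  rw [sum_image fun x _ y _ h => mul_left_cancel₀ W0 (add_left_cancel h), ← sum_product']
  set S := (Ico Y (W.natDegree + L)).sigma fun d => ((Gs (1 : k[X]) 0 d).filter fun P =>
    Irreducible P ∧ ¬ P ∣ W) ×ˢ t with hS
  have h2 : ∀ x ∈ low k L ×ˢ low k M, 1 - ∑ p ∈ S, (if p.2.1 ∣ 1 + W * x.1 then (1 : ℝ) else 0) *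
      (if p.2.1 ∣ U p.2.2 + 1 * x.2 then 1 else 0) ≤
      if ∀ c ∈ t, IsCoprime (U c + x.2) (1 + W * x.1) then (1 : ℝ) else 0 := by
    intro x hx
    split_ifs with h
    · exact sub_le_self _ (by positivity)
    push Not at h
    obtain ⟨c, hc, h⟩ := h
    have v0 : 1 + W * x.1 ≠ 0 := fun e => not_isUnit_X (isUnit_of_dvd_one
      ((dvd_add_left ((W1 X X_ne_zero (by simp)).mul_right x.1)).1 (e ▸ dvd_zero _)))
    obtain ⟨P, p1, p2, p3⟩ := exists_monic_irreducible_factor (gcd (U c + x.2) (1 + W * x.1))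
      fun e => h ((gcd_isUnit_iff _ _).1 e)
    have p4 := p3.trans (gcd_dvd_right _ _)
    have p5 : ¬ P ∣ W := fun e => p2.not_dvd_one ((dvd_add_left (e.mul_right x.1)).1 p4)
    have p6 := natDegree_le_of_dvd p4 v0
    have p7 := natDegree_lt_of_mem_low (h1 (mem_image_of_mem _ (mem_product.1 hx).1)) v0
    have p8 := mt (W1 P p1.ne_zero) p5
    rw [sub_nonpos]
    refine le_trans ?_ (single_le_sum (s := S) (fun _ _ => by positivity) (a := ⟨P.natDegree, P, c⟩)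
      (mem_sigma.2 ⟨mem_Ico.2 ⟨show Y ≤ P.natDegree by omega, p6.trans_lt p7⟩,
        mem_product.2 ⟨mem_filter.2
        ⟨mem_Gs.2 ⟨p1, rfl, one_dvd _⟩, p2, p5⟩, hc⟩⟩))
    rw [if_pos p4, if_pos (by rw [one_mul]; exact p3.trans (gcd_dvd_left _ _)), one_mul]
  refine le_trans ?_ (sum_le_sum h2)
  rw [sum_sub_distrib, sum_comm, sum_const, card_product, card_low, card_low, nsmul_eq_mul, hS,
    sum_sigma]
  have h3 : ∀ d ∈ Ico Y (W.natDegree + L), ∑ p ∈ ((Gs (1 : k[X]) 0 d).filter fun P =>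
      Irreducible P ∧ ¬ P ∣ W) ×ˢ t, ∑ x ∈ low k L ×ˢ low k M,
      (if p.1 ∣ 1 + W * x.1 then (1 : ℝ) else 0) * (if p.1 ∣ U p.2 + 1 * x.2 then 1 else 0) ≤
      r * (Nat.card k : ℝ) ^ M * ((Nat.card k : ℝ) ^ L * (1 / 2) ^ d + 1) := by
    intro d hd
    refine (sum_le_card_nsmul _ _ ((Nat.card k : ℝ) ^ (L - d) * (Nat.card k : ℝ) ^ (M - d))
      fun p hp => ?_).trans ?_
    · obtain ⟨p1, p2, p3⟩ := mem_filter.1 (mem_product.1 hp).1
      rw [sum_product' _ _ fun x y => (if p.1 ∣ 1 + W * x then (1 : ℝ) else 0) *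
        (if p.1 ∣ U p.2 + 1 * y then 1 else 0), ← sum_mul_sum, sum_boole, sum_boole,
        ← (mem_Gs.1 p1).2.1]
      exact_mod_cast Nat.mul_le_mul (cls p2 p3 L) (cls p2 p2.not_dvd_one M)
    · have a1 : (((Gs (1 : k[X]) 0 d).filter fun P => Irreducible P ∧ ¬ P ∣ W).card : ℝ) ≤
          (Nat.card k : ℝ) ^ d := by exact_mod_cast (card_filter_le _ _).trans (card_Gs_le _ _ d)
      have a2 : (Nat.card k : ℝ) ^ (L - d) ≤ (Nat.card k : ℝ) ^ L * (1 / 2) ^ d + 1 := by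
        rcases le_total d L with h | h
        · refine le_trans ?_ (le_add_of_nonneg_right zero_le_one)
          rw [one_div, inv_pow, ← div_eq_mul_inv, le_div_iff₀ (by positivity)]
          refine (mul_le_mul_of_nonneg_left (pow_le_pow_left₀ zero_le_two hq d) (hQ _).le).trans ?_
          rw [← pow_add, Nat.sub_add_cancel h]
        · rw [Nat.sub_eq_zero_of_le h, pow_zero]
          exact le_add_of_nonneg_left (by positivity)
      have a3 : (Nat.card k : ℝ) ^ M = (Nat.card k : ℝ) ^ d * (Nat.card k : ℝ) ^ (M - d) := by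
        rw [← pow_add, Nat.add_sub_cancel' (by have := (mem_Ico.1 hd).2; omega)]
      rw [card_product, nsmul_eq_mul, Nat.cast_mul, a3]
      refine le_of_le_of_eq (b := (Nat.card k : ℝ) ^ d * r * (((Nat.card k : ℝ) ^ L * (1 / 2) ^ d +
        1) * (Nat.card k : ℝ) ^ (M - d))) (by gcongr) (by ring)
  have h4 := sum_le_sum h3
  have h5 := geom_sum_Ico_le_of_lt_one (m := Y) (n := W.natDegree + L) (x := (1 / 2 : ℝ))
    (by norm_num) (by norm_num)
  have h6 := hY Y le_rfl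
  have h7 := hN0 (W.natDegree + L) (by omega)
  have h8 : (2 : ℝ) ^ L ≤ (Nat.card k : ℝ) ^ L := pow_le_pow_left₀ zero_le_two hq L
  have h9 : ((Ico Y (W.natDegree + L)).card : ℝ) ≤ (W.natDegree + L : ℕ) := by
    rw [Nat.card_Ico]; exact_mod_cast Nat.sub_le _ _
  rw [pow_one, pow_add, ← mul_div_assoc, mul_right_comm, mul_comm (2 ^ W.natDegree),
    mul_div_mul_right _ _ (by positivity), div_le_one (by positivity)] at h7
  rw [← mul_sum, sum_add_distrib, ← mul_sum, sum_const, nsmul_eq_mul, mul_one, mul_right_comm]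
    at h4
  have h10 : r * ((Nat.card k : ℝ) ^ L * ∑ d ∈ Ico Y (W.natDegree + L), (1 / 2 : ℝ) ^ d +
      (Ico Y (W.natDegree + L)).card) ≤ (Nat.card k : ℝ) ^ L / 2 := by
    have b1 := mul_le_mul_of_nonneg_left h5 (Nat.cast_nonneg (α := ℝ) r)
    have b2 := mul_le_mul_of_nonneg_left h9 (Nat.cast_nonneg (α := ℝ) r)
    have b3 : r * ((1 / 2 : ℝ) ^ Y / (1 - 1 / 2)) = 8 * r / 2 ^ Y / 4 := by
      rw [one_div_pow]; ring
    nlinarith [hQ L]
  have h11 := h4.trans (mul_le_mul_of_nonneg_right h10 (hQ M).le)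
  rw [pow_add, pow_add, show ∀ a b c : ℝ, 1 / (2 * a) * (a * b * c) = a / a * (b * c / 2) from
    fun a b c => by ring, div_self (hQ _).ne']
  push_cast
  linarith

theorem pattern [CharP k 2] (r : ℕ) (hw : ∀ ε : ℝ, 0 < ε → ∃ m0 : ℕ, ∀ (m : ℕ) (G : k[X])
    (t : Finset k[X]) (e : k[X] → ℕ), m0 ≤ m → m ≤ 2 * G.natDegree → G.Monic → t.card ≤ r →
    (∀ c ∈ t, 2 * c.natDegree < m ∧ e c ≠ 0) → (∃ c ∈ t, Odd (e c)) →
    |∑ x ∈ low k m, ∏ c ∈ t, mu (G ^ 2 + x + c ^ 2) ^ e c| ≤ ε * (Nat.card k : ℝ) ^ m)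
    {ε : ℝ} (hε : 0 < ε) :
    ∃ m0 : ℕ, ∀ (m : ℕ) (G : k[X]) (t : Finset k[X]) (σ : k[X] → ℤ), m0 ≤ m →
      m ≤ 2 * G.natDegree → G.Monic → t.card ≤ r → (∀ c ∈ t, 2 * c.natDegree < m) →
      (∀ c ∈ t, σ c = 1 ∨ σ c = -1) →
      |(((low k m).filter fun x => ∀ c ∈ t, moebius (G ^ 2 + x + c ^ 2) = σ c).card : ℝ) /
        ((low k m).filter fun x => ∀ c ∈ t, Squarefree (G ^ 2 + x + c ^ 2)).card -
        1 / 2 ^ t.card| ≤ ε := by
  obtain ⟨δ, hδ, N0, h0⟩ := cop k r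
  obtain ⟨m0, h1⟩ := hw (ε * δ) (by positivity)
  refine ⟨m0 + 2 * N0, fun m G t σ hm hn hG hr ht hσ => ?_⟩
  have hQ : (0 : ℝ) < (Nat.card k : ℝ) ^ m := by have := Nat.card_pos (α := k); positivity
  have a1 : δ * (Nat.card k : ℝ) ^ m ≤ ∑ x ∈ low k m, ∏ c ∈ t, mu (G ^ 2 + x + c ^ 2) ^ 2 := by
    have := h0 (m / 2) ((m + 1) / 2) t (fun c => fr G + fr c) (by omega) (by omega) hr
    rw [show m / 2 + (m + 1) / 2 = m by omega] at this
    rw [sum_low_eo]
    refine this.trans (sum_le_sum fun V _ => sum_le_sum fun a _ => ?_)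
    split_ifs with h
    · refine (prod_eq_one fun c hc => ?_).ge
      have e : G ^ 2 + eo a V + c ^ 2 = eo (fr G + fr c + a) V := by
        simp only [eo, map_add, expand_fr]; ring
      have s : (eo (fr G + fr c + a) V).Separable := by
        rw [separable_def, derivative_eo]
        exact ((h c hc).map (expand k 2).toRingHom).add_mul_right_left X
      rw [e, mu, s.squarefree.moebius_eq]
      simp [← pow_mul, mul_comm _ 2]
    · positivity
  have a2 : ∀ x, (if ∀ c ∈ t, moebius (G ^ 2 + x + c ^ 2) = σ c then (1 : ℝ) else 0) * 2 ^ t.card =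
      ∑ u ∈ t.powerset, (∏ c ∈ u, (σ c : ℝ)) *
        ∏ c ∈ t, mu (G ^ 2 + x + c ^ 2) ^ (if c ∈ u then 1 else 2) := fun x => by
    rw [← prod_boole, ← prod_const, ← prod_mul_distrib, prod_congr rfl (g := fun c =>
      σ c * mu (G ^ 2 + x + c ^ 2) + mu (G ^ 2 + x + c ^ 2) ^ 2) fun c hc => ?_, prod_add]
    · refine sum_congr rfl fun u hu => ?_
      rw [prod_mul_distrib, mul_assoc, ← prod_sdiff (mem_powerset.1 hu), mul_comm (∏ c ∈ t \ u, _)]
      congr 2
      · exact prod_congr rfl fun c hc => by simp [hc]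
      · exact prod_congr rfl fun c hc => by simp [(mem_sdiff.1 hc).2]
    · have : |moebius (G ^ 2 + x + c ^ 2)| ≤ 1 := by
        have := abs_mu_le (G ^ (2 : ℕ) + x + c ^ (2 : ℕ))
        rw [mu] at this
        exact_mod_cast this
      rw [mu]
      generalize moebius (G ^ 2 + x + c ^ 2) = z at this
      obtain ⟨b1, b2⟩ := abs_le.1 this
      interval_cases z <;> rcases hσ c hc with h | h <;> norm_num [h]
  have a3 := sum_congr (rfl : low k m = _) fun x _ => a2 x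
  rw [← sum_mul, sum_boole, sum_comm, ← add_sum_erase _ _ (empty_mem_powerset t)] at a3
  simp only [prod_empty, one_mul, notMem_empty, if_false, ← mul_sum] at a3
  have a4 := (abs_sum_le_sum_abs _ _).trans (sum_le_card_nsmul (t.powerset.erase ∅) (fun u =>
    |(∏ c ∈ u, (σ c : ℝ)) * ∑ x ∈ low k m, ∏ c ∈ t, mu (G ^ 2 + x + c ^ 2) ^
      (if c ∈ u then 1 else 2)|) (ε * δ * (Nat.card k : ℝ) ^ m) fun u hu => by
    obtain ⟨c, hc⟩ := nonempty_iff_ne_empty.2 (mem_erase.1 hu).1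
    have hu' := mem_powerset.1 (mem_erase.1 hu).2
    rw [abs_mul, Finset.abs_prod, prod_eq_one fun c hc => by
      rcases hσ c (hu' hc) with h | h <;> simp [h], one_mul]
    exact h1 m G t _ (by omega) hn hG hr (fun c hc => ⟨ht c hc, by split_ifs <;> simp⟩)
      ⟨c, hu' hc, by simp [hc]⟩)
  have a5 : ((t.powerset.erase ∅).card : ℝ) ≤ 2 ^ t.card := by
    exact_mod_cast card_erase_le.trans (card_powerset t).le
  have a6 : ∑ x ∈ low k m, ∏ c ∈ t, mu (G ^ 2 + x + c ^ 2) ^ 2 =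
      ((low k m).filter fun x => ∀ c ∈ t, Squarefree (G ^ 2 + x + c ^ 2)).card := by
    rw [← sum_boole]
    refine sum_congr rfl fun x _ => ?_
    rw [← prod_boole]
    refine prod_congr rfl fun c _ => ?_
    split_ifs with h
    · simp [mu, h.moebius_eq, ← pow_mul, mul_comm _ 2]
    · simp [mu, moebius_of_not_squarefree h]
  rw [nsmul_eq_mul, ← sub_eq_iff_eq_add'.2 a3, a6] at a4
  rw [a6] at a1
  have a7 := (mul_pos hδ hQ).trans_le a1
  rw [div_sub_div _ _ a7.ne' (by positivity), mul_one, abs_div,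
    abs_of_pos (mul_pos a7 (by positivity)), div_le_iff₀ (by positivity)]
  refine (a4.trans (mul_le_mul_of_nonneg_right a5 (by positivity))).trans ?_
  rw [mul_comm, mul_assoc ε, ← mul_assoc ε _ (2 ^ t.card)]
  gcongr

end Pool.Agent.P.MP_e94e4b_nt.W
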